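import Mathlib
import Pool.Agent.Q154.MultinomGrowth

/-!
# The normalized collision counts of multinomial coefficient sets tend to infinity

`Mset n` is the set of values `n! / (p₁! ⋯ p_t!)` over partitions of `n`, `r n t` counts the
unordered representations of `t` as a sum of two elements of `Mset n`, `C` is the collision
excess and `D` the number of sums with at least two representations.
-/

namespace Pool.Agent.Results.MP_dccd56_co.TendsToInfinity

open Filter Q154.Multinom

/-- The normalized collision excess. -/
noncomputable def a (n : ℕ) : ℝ := (C n : ℝ) / ((n : ℝ) ^ 2 * Real.log n)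

/-- The normalized number of sums with more than one representation. -/
noncomputable def b (n : ℕ) : ℝ := (D n : ℝ) / ((n : ℝ) ^ (3 / 2 : ℝ) * √(Real.log n))

/-- Both normalized statistics tend to infinity; so neither has a finite limit and neither has a
finite limsup. In fact `M(n) ≤ D(n + 5) ≤ C(n + 5)`, and both beat every power of `n`. -/
theorem result :
    Tendsto a atTop atTop ∧ Tendsto b atTop atTop ∧
    (∀ n : ℕ, (Mset n).card ≤ D (n + 5) ∧ D (n + 5) ≤ C (n + 5)) ∧
    ∀ A : ℕ, ∀ᶠ n : ℕ in atTop, n ^ A ≤ D n ∧ n ^ A ≤ C n :=
  ⟨ratio_C, ratio_D, fun n => ⟨card_le_D n, D_le_C (n + 5)⟩,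
    fun A => (D_growth A).and (C_growth A)⟩

end Pool.Agent.Results.MP_dccd56_co.TendsToInfinity
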